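import Mathlib

namespace Pool.Agent.Results.MP_3790b3_al.Exists

def IsSelfSim {G X : Type} [Group G] (act : G → List X → List X) (res : G → List X → G) : Prop :=
  (∀ w, act 1 w = w) ∧ (∀ g h w, act (g * h) w = act g (act h w)) ∧
  (∀ g, (∀ w, act g w = w) → g = 1) ∧
  (∀ g u v, act g (u ++ v) = act g u ++ act (res g u) v) ∧
  (∀ g u v, res g (u ++ v) = res (res g u) v) ∧
  (∀ g h u, res (g * h) u = res g (act h u) * res h u) ∧
  (∀ g, act g [] = []) ∧ (∀ g, res g [] = g) ∧ ∀ g w, (act g w).length = w.length

def FinProp {G X : Type} [Group G] (act : G → List X → List X) (res : G → List X → G) : Prop :=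
  ∀ g h : G, ∃ x : List X → G, x [] = 1 ∧
    (Set.range fun w => (x (act g w))⁻¹ * res g w * x w).Finite ∧
    (Set.range fun w => (x (act h w))⁻¹ * res h w * x w).Finite

abbrev V := ℕ → ZMod 2

def sh (n : ℕ) (g : V) : V := fun i => g (n + i)

def A (g : V) (w : List (ZMod 2)) : List (ZMod 2) := w.mapIdx fun i a => a + g i

lemma A_get (g : V) (w : List (ZMod 2)) {i : ℕ} (h : i < w.length) :
    (A g w).getD i 0 = w.getD i 0 + g i := by simp [A, h]

lemma ex (g : V) : ∃ i, g i • g = g := by
  by_cases h : g = 0
  · exact ⟨0, by simp [h]⟩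
  · obtain ⟨i, hi⟩ := Function.ne_iff.1 h
    have : g i = 1 := (by decide : ∀ c : ZMod 2, c ≠ 0 → c = 1) _ hi
    exact ⟨i, by simp [this]⟩

lemma fin_of (N : ℕ) (f : List (ZMod 2) → Multiplicative V) (h : ∀ w, N ≤ w.length → f w = 1) :
    (Set.range f).Finite := by
  refine (((List.finite_length_lt (ZMod 2) N).image f).insert 1).subset ?_
  rintro _ ⟨w, rfl⟩
  by_cases hw : N ≤ w.length
  · exact Or.inl (h w hw)
  · exact Or.inr ⟨w, not_le.1 hw, rfl⟩

theorem result : ∃ (G X : Type) (_ : Group G) (_ : Fintype X) (act : G → List X → List X)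
    (res : G → List X → G), IsSelfSim act res ∧ (¬ ∀ g, (Set.range (res g)).Finite) ∧
      FinProp act res := by
  refine ⟨Multiplicative V, ZMod 2, inferInstance, inferInstance, fun g => A g.toAdd,
    fun g w => .ofAdd (sh w.length g.toAdd), ⟨fun w => ?_, fun g h w => ?_, fun g hg => ?_,
      fun g u v => ?_, fun g u v => ?_, fun g h u => ?_, fun g => rfl, fun g => ?_,
      fun g w => by simp [A]⟩, fun hf => ?_, fun g h => ?_⟩
  · apply List.ext_getElem <;> simp [A]
  · apply List.ext_getElem <;> simp [A, add_assoc, add_comm]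
  · refine Multiplicative.toAdd.injective (funext fun i => ?_)
    have := A_get g.toAdd (List.replicate (i + 1) 0) (i := i) (by simp)
    rw [show A g.toAdd _ = _ from hg _] at this
    simpa using this.symm
  · simp [A, List.mapIdx_append, sh, add_comm]
  · simp only [toAdd_ofAdd, List.length_append]
    congr 1
    funext i
    simp [sh, add_assoc]
  · simp only [A, List.length_mapIdx]
    rfl
  · show Multiplicative.ofAdd _ = Multiplicative.ofAdd g.toAdd
    congr 1
    funext i
    simp [sh]
  · let g : V := fun i => if IsSquare i then 1 else 0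
    refine Set.infinite_of_injective_forall_mem (f := fun n : ℕ => Multiplicative.ofAdd
      (sh ((n + 1) ^ 2 + 1) g)) ?_ (fun n => ?_) (hf (.ofAdd g))
    swap
    · exact ⟨List.replicate ((n + 1) ^ 2 + 1) 0, by simp⟩
    have key : ∀ m n : ℕ, m < n → sh ((m + 1) ^ 2 + 1) g ≠ sh ((n + 1) ^ 2 + 1) g := by
      intro m n hmn e
      have := congrFun e (2 * m + 2)
      simp only [sh, g] at this
      rw [if_pos ⟨m + 2, by ring⟩, if_neg] at this
      · exact one_ne_zero this
      · rintro ⟨r, hr⟩
        have h1 : n + 1 < r := by nlinarith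
        nlinarith
    intro m n e
    have e' := Multiplicative.ofAdd.injective e
    rcases lt_trichotomy m n with h | h | h
    · exact absurd e' (key m n h)
    · exact h
    · exact absurd e'.symm (key n m h)
  · obtain ⟨i, hi⟩ := ex g.toAdd
    obtain ⟨j, hj⟩ := ex (h.toAdd - h.toAdd i • g.toAdd)
    let P : V → V := fun v => v i • g.toAdd +
      (v - v i • g.toAdd) j • (h.toAdd - h.toAdd i • g.toAdd)
    have Pg : P g.toAdd = g.toAdd := by simp only [P, hi]; simp
    have Ph : P h.toAdd = h.toAdd := by simp only [P, hj]; simp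
    have key : ∀ k : V, P k = k → ∀ w : List (ZMod 2), i + j + 1 ≤ w.length →
        P (fun n => (A k w).getD n 0) = P (fun n => w.getD n 0) + k := by
      intro k hk w hw
      conv_rhs => rw [← hk]
      simp only [P, Pi.sub_apply, Pi.smul_apply, smul_eq_mul, A_get k w (i := i) (by omega),
        A_get k w (i := j) (by omega)]
      module
    have fin : ∀ k : Multiplicative V, P k.toAdd = k.toAdd → ∀ w : List (ZMod 2),
        i + j + 1 ≤ w.length →
        (Multiplicative.ofAdd (if i + j + 1 ≤ (A k.toAdd w).length then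
          sh (A k.toAdd w).length (P fun n => (A k.toAdd w).getD n 0) else 0))⁻¹ *
          .ofAdd (sh w.length k.toAdd) * .ofAdd (if i + j + 1 ≤ w.length then
          sh w.length (P fun n => w.getD n 0) else 0) = 1 := by
      intro k hk w hw
      have hl : (A k.toAdd w).length = w.length := by simp [A]
      rw [hl, if_pos hw, if_pos hw, key _ hk w hw, ← ofAdd_neg, ← ofAdd_add, ← ofAdd_add,
        ofAdd_eq_one]
      funext n
      simp only [sh, Pi.add_apply, Pi.neg_apply, Pi.zero_apply]
      ring
    exact ⟨fun w => .ofAdd (if i + j + 1 ≤ w.length then sh w.length (P fun n => w.getD n 0) else 0),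
      by simp, fin_of _ _ (fin g Pg), fin_of _ _ (fin h Ph)⟩

end Pool.Agent.Results.MP_3790b3_al.Exists
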